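import Pool.Agent.Lib_helper90.FS.Defs

set_option autoImplicit false

/-! Block EM of `MP_c98c8e_al`: the embedding of Kaluzhnin and Krasner. -/

namespace Pool.Agent.H90.FS

universe u

/-- the shift action -/
def emAct (M : Type u) [Group M] : Multiplicative ℚ →* MulAut (ℚ → M) where
  toFun s :=
    { toFun := fun f q => f (q - s.toAdd)
      invFun := fun f q => f (q + s.toAdd)
      left_inv := fun f => by funext q; simp
      right_inv := fun f => by funext q; simp
      map_mul' := fun f g => rfl }
  map_one' := by ext f q; simp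
  map_mul' s t := by
    ext f q
    change f (q - (s * t).toAdd) = f (q - s.toAdd - t.toAdd)
    rw [toAdd_mul, sub_sub]

theorem emAct_apply (M : Type u) [Group M] (s : Multiplicative ℚ) (f : ℚ → M) (q : ℚ) :
    emAct M s f q = f (q - s.toAdd) := rfl

/-- solving `h (q + 1) = h q * g q` on the rational numbers -/
theorem em_solve {M : Type u} [Group M] (g : ℚ → M) :
    ∃ h : ℚ → M, ∀ q, h (q + 1) = h q * g q := by
  classical
  -- on each coset of the integers, by recursion on the integers
  have key : ∀ q₀ : ℚ, ∃ F : ℤ → M, ∀ n : ℤ, F (n + 1) = F n * g (q₀ + n) := by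
    intro q₀
    let P : ℕ → M := fun n => Nat.rec (motive := fun _ => M) 1 (fun k x => x * g (q₀ + k)) n
    let Q : ℕ → M := fun n => Nat.rec (motive := fun _ => M) 1
      (fun k x => x * (g (q₀ - (k + 1 : ℕ)))⁻¹) n
    have hP : ∀ n, P (n + 1) = P n * g (q₀ + n) := fun n => rfl
    have hQ : ∀ n, Q (n + 1) = Q n * (g (q₀ - (n + 1 : ℕ)))⁻¹ := fun n => rfl
    refine ⟨fun n => if 0 ≤ n then P n.toNat else Q (-n).toNat, fun n => ?_⟩
    rcases lt_trichotomy n (-1) with hn | hn | hn
    · have h1 : ¬ 0 ≤ n + 1 := by omega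
      have h2 : ¬ 0 ≤ n := by omega
      simp only [h1, h2, if_false]
      have h3 : (-n).toNat = (-(n + 1)).toNat + 1 := by omega
      rw [h3, hQ]
      have h4 : ((((-(n + 1)).toNat + 1 : ℕ) : ℚ)) = -(n : ℚ) := by
        have : (((-(n + 1)).toNat + 1 : ℕ) : ℤ) = -n := by omega
        exact_mod_cast this
      rw [h4, sub_neg_eq_add, inv_mul_cancel_right]
    · subst hn
      have e1 : P 0 = 1 := rfl
      have e2 : Q 1 = Q 0 * (g (q₀ - (0 + 1 : ℕ)))⁻¹ := rfl
      have e3 : Q 0 = 1 := rfl
      simp only [Int.reduceNeg, neg_add_cancel, le_refl, if_true, Int.toNat_zero, neg_neg,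
        Int.toNat_one]
      rw [if_neg (by norm_num), e1, e2, e3]
      simp [sub_eq_add_neg]
    · have h1 : 0 ≤ n + 1 := by omega
      have h2 : 0 ≤ n := by omega
      simp only [h1, h2, if_true]
      have h3 : (n + 1).toNat = n.toNat + 1 := by omega
      rw [h3, hP]
      have h4 : ((n.toNat : ℕ) : ℚ) = (n : ℚ) := by
        have : ((n.toNat : ℕ) : ℤ) = n := by omega
        exact_mod_cast this
      rw [h4]
  choose F hF using key
  refine ⟨fun q => F (Int.fract q) ⌊q⌋, fun q => ?_⟩
  change F (Int.fract (q + 1)) ⌊q + 1⌋ = F (Int.fract q) ⌊q⌋ * g q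
  rw [Int.fract_add_one, Int.floor_add_one, hF, Int.fract_add_floor]

theorem embed {A : Type u} [Group A] (τ : A →* Multiplicative ℚ) (hτ : KerTFA τ) :
    ∃ (V : Type u) (_ : Group V) (j : A →* V) (τ' : V → ℚ), Function.Injective j ∧ Nice τ' := by
  classical
  have hcomm : ∀ x y : τ.ker, x * y = y * x := fun x y =>
    Subtype.ext (hτ.1 x y (MonoidHom.mem_ker.1 x.2) (MonoidHom.mem_ker.1 y.2))
  have htf : ∀ (x : τ.ker) (n : ℕ), 0 < n → x ^ n = 1 → x = 1 := fun x n hn hx =>
    Subtype.ext (hτ.2 x n (MonoidHom.mem_ker.1 x.2) hn (by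
      have := congrArg Subtype.val hx
      simpa using this))
  -- the range as an additive subgroup
  let R : AddSubgroup ℚ :=
    { carrier := {q | ∃ a, τ a = Multiplicative.ofAdd q}
      zero_mem' := ⟨1, by simp⟩
      add_mem' := by
        rintro x y ⟨a, ha⟩ ⟨b, hb⟩
        exact ⟨a * b, by rw [map_mul, ha, hb, ofAdd_add]⟩
      neg_mem' := by
        rintro x ⟨a, ha⟩
        exact ⟨a⁻¹, by rw [map_inv, ha, ofAdd_neg]⟩ }
  let rep : ℚ → ℚ := fun q => Quotient.out (QuotientAddGroup.mk q : ℚ ⧸ R)
  have hrep : ∀ q, ∃ a, τ a = Multiplicative.ofAdd (q - rep q) := by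
    intro q
    have h1 : (QuotientAddGroup.mk (rep q) : ℚ ⧸ R) = QuotientAddGroup.mk q :=
      Quotient.out_eq (QuotientAddGroup.mk q : ℚ ⧸ R)
    have h2 := QuotientAddGroup.eq.1 h1
    have h3 : q - rep q ∈ R := by
      rw [sub_eq_neg_add]
      exact h2
    exact h3
  choose t ht using hrep
  have hrepR : ∀ (a : A) (q : ℚ), rep (q - (τ a).toAdd) = rep q := by
    intro a q
    have : (QuotientAddGroup.mk (q - (τ a).toAdd) : ℚ ⧸ R) = QuotientAddGroup.mk q := by
      refine QuotientAddGroup.eq.2 ?_
      have : -(q - (τ a).toAdd) + q = (τ a).toAdd := by ring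
      rw [this]
      exact ⟨a, rfl⟩
    change Quotient.out _ = Quotient.out _
    rw [this]
  have hker : ∀ (a : A) (q : ℚ), (t q)⁻¹ * a * t (q - (τ a).toAdd) ∈ τ.ker := by
    intro a q
    rw [MonoidHom.mem_ker, map_mul, map_mul, map_inv, ht, ht, hrepR]
    apply Multiplicative.toAdd.injective
    simp only [toAdd_mul, toAdd_inv, toAdd_ofAdd, toAdd_one]
    ring
  let V := (ℚ → τ.ker) ⋊[emAct τ.ker] Multiplicative ℚ
  let ψ : A → (ℚ → τ.ker) := fun a q => ⟨(t q)⁻¹ * a * t (q - (τ a).toAdd), hker a q⟩
  let j : A →* V := MonoidHom.mk' (fun a => (⟨ψ a, τ a⟩ : V)) (by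
    intro a b
    refine SemidirectProduct.ext ?_ ?_
    · funext q
      apply Subtype.ext
      change (t q)⁻¹ * (a * b) * t (q - (τ (a * b)).toAdd) =
        ((t q)⁻¹ * a * t (q - (τ a).toAdd)) *
          ((t (q - (τ a).toAdd))⁻¹ * b * t (q - (τ a).toAdd - (τ b).toAdd))
      rw [map_mul, toAdd_mul, sub_sub]
      group
    · exact map_mul τ a b)
  refine ⟨V, inferInstance, j, fun v => v.right.toAdd, ?_, ?_⟩
  · refine (injective_iff_map_eq_one j).2 fun a ha => ?_
    have h1 : ψ a = 1 := congrArg SemidirectProduct.left ha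
    have h2 : τ a = 1 := congrArg SemidirectProduct.right ha
    have h3 := congrArg Subtype.val (congrFun h1 0)
    change (t 0)⁻¹ * a * t (0 - (τ a).toAdd) = 1 at h3
    rw [h2, toAdd_one, sub_zero] at h3
    have h4 : a = t 0 * ((t 0)⁻¹ * a * t 0) * (t 0)⁻¹ := by group
    rw [h4, h3]
    group
  · refine ⟨fun a b => ?_, ?_, ?_, ?_, ?_⟩
    · change (a * b).right.toAdd = _
      rw [SemidirectProduct.mul_right, toAdd_mul]
    · exact ⟨SemidirectProduct.inr (Multiplicative.ofAdd 1), by
        rw [SemidirectProduct.right_inr]; simp⟩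
    · intro B _ _ f hf
      have hf1 : f 1 = 0 := by
        have := hf 1 1
        rw [mul_one] at this
        exact left_eq_add.1 this
      have hfinv : ∀ a, f a⁻¹ = - f a := by
        intro a
        have := hf a a⁻¹
        rw [mul_inv_cancel, hf1] at this
        exact (neg_eq_of_add_eq_zero_right this.symm).symm
      have hleft : ∀ g : ℚ → τ.ker, f (SemidirectProduct.inl g : V) = 0 := by
        intro g
        obtain ⟨h, hh⟩ := em_solve g
        let s : Multiplicative ℚ := Multiplicative.ofAdd (-1)
        have e : (SemidirectProduct.inl g : V) = (SemidirectProduct.inr s) *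
            (SemidirectProduct.inl h) * (SemidirectProduct.inr s)⁻¹ *
            (SemidirectProduct.inl h)⁻¹ := by
          rw [← map_inv SemidirectProduct.inr, ← SemidirectProduct.inl_aut,
            ← map_inv SemidirectProduct.inl, ← map_mul]
          congr 1
          funext q
          change g q = emAct τ.ker s h q * (h q)⁻¹
          rw [emAct_apply]
          have : q - s.toAdd = q + 1 := by
            change q - (-1) = q + 1
            ring
          rw [this, hh, hcomm (h q) (g q), mul_inv_cancel_right]
        rw [e, hf, hf, hf, hfinv, hfinv]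
        abel
      have hright : ∀ s : Multiplicative ℚ, f (SemidirectProduct.inr s : V) =
          s.toAdd • f (SemidirectProduct.inr (Multiplicative.ofAdd (1 : ℚ)) : V) := by
        let φ : ℚ →+ B := AddMonoidHom.mk' (fun q => f (SemidirectProduct.inr
          (Multiplicative.ofAdd q) : V)) (by
            intro x y
            rw [ofAdd_add, map_mul, hf])
        intro s
        have h1 : φ (s.toAdd • (1 : ℚ)) = s.toAdd • φ 1 := map_rat_smul φ s.toAdd (1 : ℚ)
        rw [smul_eq_mul, mul_one] at h1
        exact h1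
      refine ⟨f (SemidirectProduct.inr (Multiplicative.ofAdd (1 : ℚ)) : V), fun a => ?_⟩
      rw [← SemidirectProduct.inl_left_mul_inr_right a, hf, hleft, zero_add, hright]
      simp
    · intro x y hx hy
      have hx' : x.right = 1 := Multiplicative.toAdd.injective (by simpa using hx)
      have hy' : y.right = 1 := Multiplicative.toAdd.injective (by simpa using hy)
      refine SemidirectProduct.ext ?_ ?_
      · rw [SemidirectProduct.mul_left, SemidirectProduct.mul_left, hx', hy', map_one,
          MulAut.one_apply, MulAut.one_apply]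
        funext q
        exact hcomm _ _
      · rw [SemidirectProduct.mul_right, SemidirectProduct.mul_right, hx', hy']
    · intro x n hx hn hxn
      have hx' : x.right = 1 := Multiplicative.toAdd.injective (by simpa using hx)
      have hxi : x = SemidirectProduct.inl x.left := by
        rw [← SemidirectProduct.inl_left_mul_inr_right x, hx', map_one, mul_one,
          SemidirectProduct.left_inl]
      have h1 : (SemidirectProduct.inl (x.left ^ n) : V) = 1 := by
        rw [map_pow, ← hxi, hxn]
      have h2 : x.left ^ n = 1 := by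
        have := congrArg SemidirectProduct.left h1
        rw [SemidirectProduct.left_inl] at this
        exact this
      have h3 : x.left = 1 := by
        funext q
        refine htf _ n hn ?_
        have := congrFun h2 q
        simpa using this
      rw [hxi, h3, map_one]

end Pool.Agent.H90.FS
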